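import Pool.Agent.V11232.VA.Wit

/-!
The product bound for the degree of ambiguity of intersections of VASS languages is tight.
-/

namespace Pool.Agent.Results.MP_bb7684_lc.ProductTight

open Pool.Agent.V11232.VA

/-- For all `k₁, k₂ ≥ 1` there are a `k₁`-ambiguous and a `k₂`-ambiguous VASS language (over one
fixed alphabet with four letters) whose intersection is not recognised by any `n`-ambiguous VASS
with `1 ≤ n ≤ k₁k₂ - 1`. -/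
theorem result :
    ∀ k1 k2 : ℕ, 1 ≤ k1 → 1 ≤ k2 → ∃ L1 L2 : Language (Fin 4),
      Rec k1 L1 ∧ Rec k2 L2 ∧ ∀ n : ℕ, 1 ≤ n → n ≤ k1 * k2 - 1 → ¬ Rec n (L1 ⊓ L2) := by
  intro k1 k2 h1 h2
  let ι1 : Fin k1 → ℕ := fun i => i
  let ι2 : Fin k2 → ℕ := fun j => k1 + j
  refine ⟨(wit k1 (k1 + k2) ι1).lang, (wit k2 (k1 + k2) ι2).lang,
    ⟨1, _, wit_ambig ι1, rfl⟩, ⟨1, _, wit_ambig ι2, rfl⟩, ?_⟩
  rintro n hn1 hn2 ⟨d, V, hA, hV⟩
  have hL : ∀ n m : ℕ → ℕ, WW n m (k1 + k2) ∈ V.lang ↔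
      (∃ i < k1, m i ≤ n i) ∧ (∃ j, k1 ≤ j ∧ j < k1 + k2 ∧ m j ≤ n j) := by
    intro n m
    rw [hV]
    have e : WW n m (k1 + k2) ∈ (wit k1 (k1 + k2) ι1).lang ⊓ (wit k2 (k1 + k2) ι2).lang ↔
      (WW n m (k1 + k2) ∈ (wit k1 (k1 + k2) ι1).lang ∧
        WW n m (k1 + k2) ∈ (wit k2 (k1 + k2) ι2).lang) := Iff.rfl
    rw [e, wit_mem ι1 (fun i => by have := i.2; simp only [ι1]; omega),
      wit_mem ι2 (fun j => by have := j.2; simp only [ι2]; omega)]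
    constructor
    · rintro ⟨⟨i, hi⟩, ⟨j, hj⟩⟩
      exact ⟨⟨i, i.2, hi⟩, ⟨k1 + j, by omega, by have := j.2; omega, hj⟩⟩
    · rintro ⟨⟨i, hi1, hi⟩, ⟨j, hj1, hj2, hj⟩⟩
      refine ⟨⟨⟨i, hi1⟩, hi⟩, ⟨⟨j - k1, by omega⟩, ?_⟩⟩
      have : k1 + (j - k1) = j := by omega
      simp only [ι2, this]; exact hj
  have := lower V k1 k2 hL n hA
  have hpos : 0 < k1 * k2 := Nat.mul_pos h1 h2
  omega

end Pool.Agent.Results.MP_bb7684_lc.ProductTight
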